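import Mathlib

/-!
# The isolation number of Cartesian products (MP_e0e9b7_co)

`N[A]` is the closed neighbourhood of `A`. A set `A` is isolating when no edge has both endpoints
outside `N[A]`; `ι` is the isolation number and `γ` the domination number. We show:

* if `G` has `m` edges whose closed neighbourhoods `N[x] ∪ N[y]` are pairwise disjoint, then
  `ι(G □ H) ≥ m · γ(H)` for every graph `H`;
* if `G` is a forest, then it has `ι(G)` such edges, hence `ι(G □ H) ≥ ι(G) γ(H) ≥ ι(G) ι(H)` for
  every graph `H`.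
-/

set_option autoImplicit false

namespace Pool.Agent.Results.MP_e0e9b7_co.PackingBound

open SimpleGraph

variable {V W : Type} [Fintype V] [Fintype W]

/-- the closed neighbourhood of a set of vertices -/
def closedNbhd {V : Type} (G : SimpleGraph V) (A : Finset V) : Set V :=
  {v | ∃ a ∈ A, a = v ∨ G.Adj a v}

/-- `A` is an isolating set: no edge has both endpoints outside `N[A]` -/
def IsIsolating {V : Type} (G : SimpleGraph V) (A : Finset V) : Prop :=
  ∀ x y, G.Adj x y → x ∈ closedNbhd G A ∨ y ∈ closedNbhd G A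

/-- `A` is a dominating set -/
def IsDominating {V : Type} (G : SimpleGraph V) (A : Finset V) : Prop :=
  ∀ x, x ∈ closedNbhd G A

/-- the isolation number -/
noncomputable def isolationNumber {V : Type} (G : SimpleGraph V) : ℕ :=
  sInf {n | ∃ A : Finset V, IsIsolating G A ∧ A.card = n}

/-- the domination number -/
noncomputable def dominationNumber {V : Type} (G : SimpleGraph V) : ℕ :=
  sInf {n | ∃ A : Finset V, IsDominating G A ∧ A.card = n}

/-- the closed neighbourhood of the edge `e` -/
def edgeNbhd {V : Type} (G : SimpleGraph V) (e : V × V) : Set V :=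
  {v | (v = e.1 ∨ G.Adj e.1 v) ∨ (v = e.2 ∨ G.Adj e.2 v)}

/-- a set of edges of `G` whose closed neighbourhoods are pairwise disjoint -/
def IsPacking {V : Type} (G : SimpleGraph V) (P : Finset (V × V)) : Prop :=
  (∀ e ∈ P, G.Adj e.1 e.2) ∧
    ∀ e ∈ P, ∀ f ∈ P, e ≠ f → Disjoint (edgeNbhd G e) (edgeNbhd G f)

omit [Fintype V] in
theorem isolating_hits {G : SimpleGraph V} {A : Finset V} (hA : IsIsolating G A) {x y : V}
    (h : G.Adj x y) : ∃ a ∈ A, a ∈ edgeNbhd G (x, y) := by
  rcases hA x y h with ⟨a, ha, h1⟩ | ⟨a, ha, h1⟩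
  · refine ⟨a, ha, Or.inl ?_⟩
    rcases h1 with rfl | h1
    · exact Or.inl rfl
    · exact Or.inr h1.symm
  · refine ⟨a, ha, Or.inr ?_⟩
    rcases h1 with rfl | h1
    · exact Or.inl rfl
    · exact Or.inr h1.symm

omit [Fintype V] in
theorem isolating_of_hits {G : SimpleGraph V} {A : Finset V}
    (h : ∀ x y, G.Adj x y → ∃ a ∈ A, a ∈ edgeNbhd G (x, y)) : IsIsolating G A := by
  intro x y hxy
  obtain ⟨a, ha, h1 | h1⟩ := h x y hxy
  · left
    refine ⟨a, ha, ?_⟩
    rcases h1 with rfl | h1
    · exact Or.inl rfl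
    · exact Or.inr h1.symm
  · right
    refine ⟨a, ha, ?_⟩
    rcases h1 with rfl | h1
    · exact Or.inl rfl
    · exact Or.inr h1.symm

theorem dom_nonempty (G : SimpleGraph V) :
    {n | ∃ A : Finset V, IsDominating G A ∧ A.card = n}.Nonempty :=
  ⟨_, Finset.univ, fun x => ⟨x, Finset.mem_univ x, Or.inl rfl⟩, rfl⟩

theorem iso_nonempty (G : SimpleGraph V) :
    {n | ∃ A : Finset V, IsIsolating G A ∧ A.card = n}.Nonempty :=
  ⟨_, Finset.univ, fun x _ _ => Or.inl ⟨x, Finset.mem_univ x, Or.inl rfl⟩, rfl⟩

omit [Fintype V] in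
theorem dom_le {G : SimpleGraph V} {A : Finset V} (h : IsDominating G A) :
    dominationNumber G ≤ A.card := Nat.sInf_le ⟨A, h, rfl⟩

omit [Fintype V] in
theorem iso_le {G : SimpleGraph V} {A : Finset V} (h : IsIsolating G A) :
    isolationNumber G ≤ A.card := Nat.sInf_le ⟨A, h, rfl⟩

theorem exists_iso (G : SimpleGraph V) : ∃ A : Finset V, IsIsolating G A ∧
    A.card = isolationNumber G := Nat.sInf_mem (iso_nonempty G)

theorem exists_dom (G : SimpleGraph V) : ∃ A : Finset V, IsDominating G A ∧
    A.card = dominationNumber G := Nat.sInf_mem (dom_nonempty G)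

theorem iso_le_dom (G : SimpleGraph V) : isolationNumber G ≤ dominationNumber G := by
  obtain ⟨A, hA, hc⟩ := exists_dom G
  rw [← hc]
  exact iso_le fun x _ _ => Or.inl (hA x)

/-- the packing bound -/
theorem packing_bound (G : SimpleGraph V) (H : SimpleGraph W) {P : Finset (V × V)}
    (hP : IsPacking G P) : P.card * dominationNumber H ≤ isolationNumber (G □ H) := by
  classical
  obtain ⟨A, hA, hc⟩ := exists_iso (G □ H)
  rw [← hc]
  have hcard : ∀ e ∈ P, dominationNumber H ≤ (A.filter fun z => z.1 ∈ edgeNbhd G e).card := by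
    intro e he
    set B := (A.filter fun z => z.1 ∈ edgeNbhd G e).image Prod.snd with hB
    have hdom : IsDominating H B := by
      intro h
      have hadj : (G □ H).Adj (e.1, h) (e.2, h) := by
        rw [boxProd_adj]
        exact Or.inl ⟨hP.1 e he, rfl⟩
      obtain ⟨a, ha, h1⟩ := isolating_hits hA hadj
      have key : a.1 ∈ edgeNbhd G e ∧ (a.2 = h ∨ H.Adj a.2 h) := by
        simp only [edgeNbhd, Set.mem_ofPred_eq, boxProd_adj] at h1 ⊢
        rcases h1 with (h1 | h1) | (h1 | h1)
        · subst h1
          exact ⟨Or.inl (Or.inl rfl), Or.inl rfl⟩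
        · rcases h1 with ⟨h2, h3⟩ | ⟨h2, h3⟩
          · exact ⟨Or.inl (Or.inr h2), Or.inl h3.symm⟩
          · exact ⟨Or.inl (Or.inl h3.symm), Or.inr h2.symm⟩
        · subst h1
          exact ⟨Or.inr (Or.inl rfl), Or.inl rfl⟩
        · rcases h1 with ⟨h2, h3⟩ | ⟨h2, h3⟩
          · exact ⟨Or.inr (Or.inr h2), Or.inl h3.symm⟩
          · exact ⟨Or.inr (Or.inl h3.symm), Or.inr h2.symm⟩
      refine ⟨a.2, ?_, key.2⟩
      rw [hB, Finset.mem_image]
      exact ⟨a, Finset.mem_filter.2 ⟨ha, key.1⟩, rfl⟩
    exact (dom_le hdom).trans Finset.card_image_le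
  calc P.card * dominationNumber H = ∑ _e ∈ P, dominationNumber H := by
        rw [Finset.sum_const, smul_eq_mul]
    _ ≤ ∑ e ∈ P, (A.filter fun z => z.1 ∈ edgeNbhd G e).card := Finset.sum_le_sum hcard
    _ = (P.biUnion fun e => A.filter fun z => z.1 ∈ edgeNbhd G e).card := by
        rw [Finset.card_biUnion]
        intro e he f hf hef
        rw [Function.onFun, Finset.disjoint_left]
        intro z hz hz'
        exact Set.disjoint_left.1 (hP.2 e he f hf hef) (Finset.mem_filter.1 hz).2
          (Finset.mem_filter.1 hz').2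
    _ ≤ A.card := Finset.card_le_card (Finset.biUnion_subset.2 fun e _ => Finset.filter_subset _ _)

/-! ### Forests -/

/-- a rooted forest structure on `G`: adjacent vertices are a vertex of positive rank and its
parent -/
structure Rooted (G : SimpleGraph V) where
  rk : V → ℕ
  par : V → V
  adj : ∀ a b, G.Adj a b → (rk a = rk b + 1 ∧ par a = b) ∨ (rk b = rk a + 1 ∧ par b = a)
  par_adj : ∀ a, 0 < rk a → G.Adj a (par a)
  par_rk : ∀ a, 0 < rk a → rk a = rk (par a) + 1

omit [Fintype V] in
theorem exists_rooted {G : SimpleGraph V} (hG : G.IsAcyclic) : Nonempty (Rooted G) := by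
  classical
  let root : V → V := fun v => (G.connectedComponentMk v).nonempty_supp.some
  have hroot : ∀ v, G.Reachable (root v) v := fun v =>
    ConnectedComponent.exact (G.connectedComponentMk v).nonempty_supp.some_mem
  have hadjroot : ∀ {a b}, G.Adj a b → root a = root b := by
    intro a b h
    have : G.connectedComponentMk a = G.connectedComponentMk b := ConnectedComponent.sound h.reachable
    simp only [root]
    congr 1
    all_goals simp [this]
  let rk : V → ℕ := fun v => G.dist (root v) v
  have hstep : ∀ a b, G.Adj a b → rk a = rk b + 1 ∨ rk b = rk a + 1 := by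
    intro a b h
    have := hG.dist_eq_dist_add_one_of_adj_of_reachable (root a) h (hroot a)
    simp only [rk]
    rw [← hadjroot h]
    exact this
  have hrkadj : ∀ x z, G.Adj x z → G.dist (root x) z = rk z := by
    intro x z h
    simp only [rk]
    rw [hadjroot h]
  -- uniqueness of the neighbour of smaller rank
  have huniq : ∀ x y, G.Adj x y → rk x = rk y + 1 →
      ∀ p : G.Walk (root x) x, p.IsPath → p.length = rk x → y = p.penultimate := by
    intro x y h hr p hp hl
    have hreach : G.Reachable (root x) y := (hroot x).trans h.reachable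
    obtain ⟨q, hq, hql⟩ := hreach.exists_path_of_dist
    have hx : x ∉ q.support := by
      intro hx
      have h1 := dist_le (q.takeUntil x hx)
      have h2 := q.length_takeUntil_le_length hx
      have h3 : G.dist (root x) y = rk y := by simp only [rk]; rw [hadjroot h]
      have h4 : G.dist (root x) x = rk x := rfl
      omega
    have hy : y ∈ p.support := hG.mem_support_of_ne_mem_support_of_adj_of_isPath hp hq h hx
    exact hG.eq_penultimate_of_adj_end hp h hy
  have hpar : ∀ x, ∃ y, ∀ z, G.Adj x z → rk x = rk z + 1 → z = y := by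
    intro x
    obtain ⟨p, hp, hl⟩ := (hroot x).exists_path_of_dist
    exact ⟨p.penultimate, fun z hz hr => huniq x z hz hr p hp hl⟩
  choose f hf using hpar
  -- the parent
  have hlow : ∀ x, 0 < rk x → G.Adj x (f x) ∧ rk x = rk (f x) + 1 := by
    intro x hx
    obtain ⟨p, hp, hl⟩ := (hroot x).exists_path_of_dist
    have hne : root x ≠ x := by
      intro h
      simp only [rk] at hx
      rw [h, dist_self] at hx
      omega
    have hnil : ¬ p.Nil := Walk.not_nil_of_ne hne
    have hadj := (p.adj_penultimate hnil).symm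
    have hd : rk x = rk p.penultimate + 1 := by
      rcases hstep _ _ hadj with h | h
      · exact h
      · exfalso
        have h1 := dist_le p.dropLast
        have h2 : p.dropLast.length = p.length - 1 := by simp
        have h3 : G.dist (root x) p.penultimate = rk p.penultimate := hrkadj x _ hadj
        have h4 : G.dist (root x) x = rk x := rfl
        omega
    rw [← hf x _ hadj hd]
    exact ⟨hadj, hd⟩
  refine ⟨⟨rk, f, ?_, fun x hx => (hlow x hx).1, fun x hx => (hlow x hx).2⟩⟩
  intro a b h
  rcases hstep a b h with h1 | h1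
  · exact Or.inl ⟨h1, (hf a b h h1).symm⟩
  · exact Or.inr ⟨h1, (hf b a h.symm h1).symm⟩

namespace Rooted

variable {G : SimpleGraph V} (R : Rooted G)

/-- the highest vertex of the closed neighbourhood of the edge `c – par c` -/
def top (c : V) : V := if 0 < R.rk (R.par c) then R.par (R.par c) else R.par c

omit [Fintype V] in
theorem step {c : V} (hc : 0 < R.rk c) {x : V} (hx : x ∈ edgeNbhd G (c, R.par c)) :
    x = R.top c ∨ (R.rk (R.top c) < R.rk x ∧ 0 < R.rk x ∧ R.par x ∈ edgeNbhd G (c, R.par c)) := by
  have hb := R.par_rk c hc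
  have hadj := R.par_adj c hc
  have hcb : ∀ y, y = R.par c → y = R.top c ∨ (R.rk (R.top c) < R.rk y ∧ 0 < R.rk y ∧
      R.par y ∈ edgeNbhd G (c, R.par c)) := by
    intro y hy
    subst hy
    by_cases h : 0 < R.rk (R.par c)
    · right
      have h1 := R.par_rk _ h
      have h2 : R.top c = R.par (R.par c) := if_pos h
      refine ⟨by rw [h2]; omega, h, Or.inr (Or.inr (R.par_adj _ h))⟩
    · left
      exact (if_neg h).symm
  have htop : R.rk (R.top c) ≤ R.rk (R.par c) := by
    by_cases h : 0 < R.rk (R.par c)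
    · have h1 := R.par_rk _ h
      have h2 : R.top c = R.par (R.par c) := if_pos h
      rw [h2]; omega
    · have h2 : R.top c = R.par c := if_neg h
      rw [h2]
  simp only [edgeNbhd, Set.mem_ofPred_eq] at hx
  rcases hx with (rfl | h) | (rfl | h)
  · right
    exact ⟨by omega, hc, Or.inr (Or.inl rfl)⟩
  · rcases R.adj c x h with h1 | h1
    · exact hcb x h1.2.symm
    · right
      refine ⟨by omega, by omega, ?_⟩
      rw [h1.2]
      exact Or.inl (Or.inl rfl)
  · exact hcb _ rfl
  · rcases R.adj (R.par c) x h with h1 | h1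
    · left
      have h2 : 0 < R.rk (R.par c) := by omega
      have h3 : R.top c = R.par (R.par c) := if_pos h2
      rw [h3, h1.2]
    · right
      refine ⟨by omega, by omega, ?_⟩
      rw [h1.2]
      exact Or.inr (Or.inl rfl)

omit [Fintype V] in
theorem top_mem {c : V} (hc : 0 < R.rk c) : R.top c ∈ edgeNbhd G (c, R.par c) := by
  by_cases h : 0 < R.rk (R.par c)
  · have h2 : R.top c = R.par (R.par c) := if_pos h
    rw [h2]
    exact Or.inr (Or.inr (R.par_adj _ h))
  · have h2 : R.top c = R.par c := if_neg h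
    rw [h2]
    exact Or.inr (Or.inl rfl)

omit [Fintype V] in
theorem chain {c : V} (hc : 0 < R.rk c) : ∀ (n : ℕ) (x : V), x ∈ edgeNbhd G (c, R.par c) →
    R.rk x = R.rk (R.top c) + n →
    R.par^[n] x = R.top c ∧ ∀ j ≤ n, R.par^[j] x ∈ edgeNbhd G (c, R.par c) := by
  intro n
  induction n with
  | zero =>
    intro x hx hr
    rcases R.step hc hx with h | h
    · refine ⟨h, fun j hj => ?_⟩
      obtain rfl : j = 0 := by omega
      exact hx
    · exfalso; omega
  | succ n ih =>
    intro x hx hr
    rcases R.step hc hx with h | ⟨h1, h2, h3⟩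
    · exfalso
      rw [← h] at hr
      omega
    · have h4 := R.par_rk x h2
      obtain ⟨h5, h6⟩ := ih (R.par x) h3 (by omega)
      refine ⟨by rw [Function.iterate_succ_apply]; exact h5, fun j hj => ?_⟩
      rcases j with _ | j
      · exact hx
      · rw [Function.iterate_succ_apply]
        exact h6 j (by omega)

omit [Fintype V] in
theorem le_rk {c : V} (hc : 0 < R.rk c) {x : V} (hx : x ∈ edgeNbhd G (c, R.par c)) :
    R.rk (R.top c) ≤ R.rk x := by
  rcases R.step hc hx with h | h
  · rw [h]
  · exact h.1.le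

omit [Fintype V] in
theorem top_mem_of_inter {c c' : V} (hc : 0 < R.rk c) (hc' : 0 < R.rk c')
    (hle : R.rk (R.top c') ≤ R.rk (R.top c)) {x : V} (hx : x ∈ edgeNbhd G (c, R.par c))
    (hx' : x ∈ edgeNbhd G (c', R.par c')) : R.top c ∈ edgeNbhd G (c', R.par c') := by
  have h1 := R.le_rk hc hx
  have h2 := R.le_rk hc' hx'
  obtain ⟨h3, -⟩ := R.chain hc (R.rk x - R.rk (R.top c)) x hx (by omega)
  obtain ⟨-, h4⟩ := R.chain hc' (R.rk x - R.rk (R.top c')) x hx' (by omega)
  rw [← h3]
  exact h4 _ (by omega)

omit [Fintype V] in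
theorem greedy [DecidableEq V] (F : Finset V) (hF : ∀ c ∈ F, 0 < R.rk c) :
    ∃ A P : Finset V, P ⊆ F ∧ A.card ≤ P.card ∧
      (∀ c ∈ F, ∃ a ∈ A, a ∈ edgeNbhd G (c, R.par c)) ∧
      ∀ c ∈ P, ∀ c' ∈ P, c ≠ c' →
        Disjoint (edgeNbhd G (c, R.par c)) (edgeNbhd G (c', R.par c')) := by
  classical
  induction F using Finset.strongInduction with
  | H F ih =>
    rcases F.eq_empty_or_nonempty with rfl | hne
    · exact ⟨∅, ∅, Finset.Subset.refl _, le_rfl, by simp, by simp⟩
    · obtain ⟨c, hc, hmax⟩ := F.exists_max_image (fun c => R.rk (R.top c)) hne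
      set F' := F.filter fun c' => R.top c ∉ edgeNbhd G (c', R.par c') with hF'
      have hcF' : c ∉ F' := by
        intro h
        exact (Finset.mem_filter.1 h).2 (R.top_mem (hF c hc))
      have hss : F' ⊂ F := by
        refine (Finset.ssubset_iff_of_subset (Finset.filter_subset _ _)).2 ⟨c, hc, hcF'⟩
      obtain ⟨A, P, h1, h2, h3, h4⟩ := ih F' hss
        fun c' hc' => hF c' (Finset.filter_subset _ _ hc')
      have hkey : ∀ c' ∈ P, Disjoint (edgeNbhd G (c, R.par c)) (edgeNbhd G (c', R.par c')) := by
        intro c' hc'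
        have hm := Finset.mem_filter.1 (h1 hc')
        rw [Set.disjoint_left]
        intro x hx hx'
        exact hm.2 (R.top_mem_of_inter (hF c hc) (hF c' hm.1) (hmax c' hm.1) hx hx')
      have hcP : c ∉ P := fun h => hcF' (h1 h)
      refine ⟨insert (R.top c) A, insert c P, ?_, ?_, ?_, ?_⟩
      · intro y hy
        rcases Finset.mem_insert.1 hy with rfl | hy
        · exact hc
        · exact Finset.filter_subset _ _ (h1 hy)
      · rw [Finset.card_insert_of_notMem hcP]
        exact (Finset.card_insert_le _ _).trans (by omega)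
      · intro c' hc'
        by_cases ht : R.top c ∈ edgeNbhd G (c', R.par c')
        · exact ⟨_, Finset.mem_insert_self _ _, ht⟩
        · obtain ⟨a, ha, ha'⟩ := h3 c' (Finset.mem_filter.2 ⟨hc', ht⟩)
          exact ⟨a, Finset.mem_insert_of_mem ha, ha'⟩
      · intro x hx y hy hxy
        rcases Finset.mem_insert.1 hx with hx1 | hx1
        · rcases Finset.mem_insert.1 hy with hy1 | hy1
          · exact absurd (hx1.trans hy1.symm) hxy
          · rw [hx1]
            exact hkey y hy1
        · rcases Finset.mem_insert.1 hy with hy1 | hy1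
          · rw [hy1]
            exact (hkey x hx1).symm
          · exact h4 x hx1 y hy1 hxy

end Rooted

omit [Fintype V] in
theorem edgeNbhd_swap (G : SimpleGraph V) (x y : V) : edgeNbhd G (x, y) = edgeNbhd G (y, x) := by
  ext v
  simp only [edgeNbhd, Set.mem_ofPred_eq]
  tauto

/-- a forest has a packing of `ι(G)` edge neighbourhoods -/
theorem forest_packing {G : SimpleGraph V} (hG : G.IsAcyclic) :
    ∃ P : Finset (V × V), IsPacking G P ∧ isolationNumber G ≤ P.card := by
  classical
  obtain ⟨R⟩ := exists_rooted hG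
  obtain ⟨A, P, h1, h2, h3, h4⟩ := R.greedy (Finset.univ.filter fun c => 0 < R.rk c)
    fun c hc => (Finset.mem_filter.1 hc).2
  have hinj : Function.Injective fun c : V => (c, R.par c) := fun a b h => (Prod.ext_iff.1 h).1
  refine ⟨P.image fun c => (c, R.par c), ⟨?_, ?_⟩, ?_⟩
  · intro e he
    obtain ⟨c, hc, rfl⟩ := Finset.mem_image.1 he
    exact R.par_adj c (Finset.mem_filter.1 (h1 hc)).2
  · intro e he f hf hef
    obtain ⟨c, hc, rfl⟩ := Finset.mem_image.1 he
    obtain ⟨c', hc', rfl⟩ := Finset.mem_image.1 hf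
    exact h4 c hc c' hc' fun h => hef (by rw [h])
  · rw [Finset.card_image_of_injective _ hinj]
    refine (iso_le (isolating_of_hits ?_)).trans h2
    intro x y hxy
    rcases R.adj x y hxy with ⟨h5, h6⟩ | ⟨h5, h6⟩
    · have := h3 x (Finset.mem_filter.2 ⟨Finset.mem_univ _, by omega⟩)
      rwa [h6] at this
    · have := h3 y (Finset.mem_filter.2 ⟨Finset.mem_univ _, by omega⟩)
      rw [h6, edgeNbhd_swap] at this
      exact this

/-- **Main theorem.** Let `G`, `H` be finite graphs.
1. If `G` has a set `P` of edges whose closed neighbourhoods are pairwise disjoint, then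
`ι(G □ H) ≥ |P| γ(H)`.
2. If `G` is a forest then `ι(G □ H) ≥ ι(G) γ(H)`, and hence `ι(G □ H) ≥ ι(G) ι(H)`.
3. If `ι(G) ≤ 1`, then `ι(G □ H) ≥ ι(G) γ(H) ≥ ι(G) ι(H)`. -/
theorem result (G : SimpleGraph V) (H : SimpleGraph W) :
    (∀ P : Finset (V × V), IsPacking G P →
      P.card * dominationNumber H ≤ isolationNumber (G □ H)) ∧
    (G.IsAcyclic ∨ isolationNumber G ≤ 1 →
      isolationNumber G * dominationNumber H ≤ isolationNumber (G □ H) ∧
      isolationNumber G * isolationNumber H ≤ isolationNumber (G □ H)) := by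
  classical
  refine ⟨fun P hP => packing_bound G H hP, fun hG => ?_⟩
  suffices h : ∃ P : Finset (V × V), IsPacking G P ∧ isolationNumber G ≤ P.card by
    obtain ⟨P, hP, hc⟩ := h
    have h1 : isolationNumber G * dominationNumber H ≤ isolationNumber (G □ H) :=
      (Nat.mul_le_mul_right _ hc).trans (packing_bound G H hP)
    exact ⟨h1, (Nat.mul_le_mul_left _ (iso_le_dom H)).trans h1⟩
  rcases hG with hG | hG
  · exact forest_packing hG
  · by_cases he : ∃ x y, G.Adj x y
    · obtain ⟨x, y, hxy⟩ := he
      refine ⟨{(x, y)}, ⟨?_, ?_⟩, by simpa using hG⟩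
      · intro e he
        rw [Finset.mem_singleton.1 he]
        exact hxy
      · intro e he f hf hef
        exact absurd ((Finset.mem_singleton.1 he).trans (Finset.mem_singleton.1 hf).symm) hef
    · push Not at he
      refine ⟨∅, ⟨by simp, by simp⟩, ?_⟩
      have h0 : IsIsolating G (∅ : Finset V) := fun x y hxy => absurd hxy (he x y)
      simpa using iso_le h0

end Pool.Agent.Results.MP_e0e9b7_co.PackingBound
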